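import Pool.Agent.MP_3a21c3_co.Defs

-- part MP_3a21c3_co.Faces
section

/-! General lemmas on exposed faces of convex hulls and on pyramids. -/

open Set

namespace Pool.Agent.MP_3a21c3_co

theorem lin_apply (l : (Fin 3 → ℝ) →L[ℝ] ℝ) (x : Fin 3 → ℝ) :
    l x = l ![1, 0, 0] * x 0 + l ![0, 1, 0] * x 1 + l ![0, 0, 1] * x 2 := by
  have h : x = x 0 • ![1, 0, 0] + x 1 • ![0, 1, 0] + x 2 • ![0, 0, 1] := by
    ext i; fin_cases i <;> simp
  conv_lhs => rw [h]
  simp only [map_add, map_smul, smul_eq_mul]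
  ring

theorem lin_coeffs (l : (Fin 3 → ℝ) →L[ℝ] ℝ) :
    ∃ α β γ : ℝ, (∀ x, l x = α * x 0 + β * x 1 + γ * x 2) ∧
      (α = 0 → β = 0 → γ = 0 → l = 0) := by
  refine ⟨_, _, _, lin_apply l, fun h0 h1 h2 => ?_⟩
  ext1 x
  rw [lin_apply l x, h0, h1, h2]; simp

/-- the functional with given coefficients -/
noncomputable def fn (α β γ : ℝ) : (Fin 3 → ℝ) →L[ℝ] ℝ :=
  α • ContinuousLinearMap.proj 0 + β • ContinuousLinearMap.proj 1 +
    γ • (ContinuousLinearMap.proj 2 : (Fin 3 → ℝ) →L[ℝ] ℝ)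

theorem fn_apply (α β γ : ℝ) (x : Fin 3 → ℝ) : fn α β γ x = α * x 0 + β * x 1 + γ * x 2 := by
  simp [fn]

theorem hull_le (V : Set (Fin 3 → ℝ)) (l : (Fin 3 → ℝ) →L[ℝ] ℝ) (M : ℝ)
    (hV : ∀ v ∈ V, l v ≤ M) (x : Fin 3 → ℝ) (hx : x ∈ convexHull ℝ V) :
    l x ≤ M ∧ (l x = M → x ∈ convexHull ℝ {v ∈ V | l v = M}) := by
  have hconv : Convex ℝ {x | l x ≤ M ∧ (l x = M → x ∈ convexHull ℝ {v ∈ V | l v = M})} := by
    rw [convex_iff_forall_pos]
    rintro x ⟨hx1, hx2⟩ y ⟨hy1, hy2⟩ a b ha hb hab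
    have e : l (a • x + b • y) = a * l x + b * l y := by simp
    have hM : a * M + b * M = M := by rw [← add_mul, hab, one_mul]
    have h1 := mul_le_mul_of_nonneg_left hx1 ha.le
    have h2 := mul_le_mul_of_nonneg_left hy1 hb.le
    refine ⟨by rw [e]; linarith, fun h => ?_⟩
    rw [e] at h
    have hx' : l x = M := mul_left_cancel₀ ha.ne' (by linarith)
    have hy' : l y = M := mul_left_cancel₀ hb.ne' (by linarith)
    exact convex_convexHull ℝ _ (hx2 hx') (hy2 hy') ha.le hb.le hab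
  refine convexHull_min (t := {x | l x ≤ M ∧ (l x = M → x ∈ convexHull ℝ {v ∈ V | l v = M})})
    (fun v hv => ?_) hconv hx
  exact ⟨hV v hv, fun h => subset_convexHull ℝ _ ⟨hv, h⟩⟩

theorem hull_eq (W : Set (Fin 3 → ℝ)) (l : (Fin 3 → ℝ) →L[ℝ] ℝ) (M : ℝ)
    (hW : ∀ v ∈ W, l v = M) (x : Fin 3 → ℝ) (hx : x ∈ convexHull ℝ W) : l x = M := by
  have h1 := (hull_le W l M (fun v hv => (hW v hv).le) x hx).1
  have h2 := (hull_le W (-l) (-M) (fun v hv => by simp [hW v hv]) x hx).1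
  simp at h2
  linarith

/-- Structure of a nonempty exposed subset of a convex hull. -/
theorem exposed_struct (V F : Set (Fin 3 → ℝ)) (hF : IsExposed ℝ (convexHull ℝ V) F)
    (hne : F.Nonempty) : ∃ (l : (Fin 3 → ℝ) →L[ℝ] ℝ) (M : ℝ), (∀ v ∈ V, l v ≤ M) ∧
      F = convexHull ℝ {v ∈ V | l v = M} := by
  obtain ⟨l, hl⟩ := hF hne
  obtain ⟨x0, hx0⟩ := hne
  have hx0' := hx0
  rw [hl] at hx0'
  have hV : ∀ v ∈ V, l v ≤ l x0 := fun v hv => hx0'.2 v (subset_convexHull ℝ V hv)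
  refine ⟨l, l x0, hV, ?_⟩
  rw [hl]
  ext x
  constructor
  · rintro ⟨hx, hmax⟩
    exact (hull_le V l _ hV x hx).2 (le_antisymm (hx0'.2 x hx) (hmax x0 hx0'.1))
  · intro hx
    refine ⟨convexHull_mono (sep_subset _ _) hx, fun y hy => ?_⟩
    rw [hull_eq _ l (l x0) (fun v hv => hv.2) x hx]
    exact hx0'.2 y hy

theorem exposed_of (V W : Set (Fin 3 → ℝ)) (l : (Fin 3 → ℝ) →L[ℝ] ℝ) (M : ℝ)
    (hV : ∀ v ∈ V, l v ≤ M) (hW : W = {v ∈ V | l v = M}) :
    IsExposed ℝ (convexHull ℝ V) (convexHull ℝ W) := by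
  intro hne
  refine ⟨l, ?_⟩
  obtain ⟨w, hw⟩ := convexHull_nonempty_iff.1 hne
  subst hW
  ext x
  constructor
  · intro hx
    refine ⟨convexHull_mono (sep_subset _ _) hx, fun y hy => ?_⟩
    rw [hull_eq _ l M (fun v hv => hv.2) x hx]
    exact (hull_le V l M hV y hy).1
  · rintro ⟨hx, hmax⟩
    have h := hull_le V l M hV x hx
    refine h.2 (le_antisymm h.1 ?_)
    have := hmax w (subset_convexHull ℝ V hw.1)
    rwa [hw.2] at this

theorem vectorSpan_hull (W : Set (Fin 3 → ℝ)) :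
    vectorSpan ℝ (convexHull ℝ W) = vectorSpan ℝ W := by
  rw [← direction_affineSpan, affineSpan_convexHull, direction_affineSpan]

theorem finrank_pair_le (p q : Fin 3 → ℝ) (W : Set (Fin 3 → ℝ)) (hW : W ⊆ {p, q}) :
    Module.finrank ℝ (vectorSpan ℝ (convexHull ℝ W)) ≤ 1 := by
  rw [vectorSpan_hull]
  refine (Submodule.finrank_mono (vectorSpan_mono ℝ hW)).trans ?_
  rw [vectorSpan_pair]
  by_cases h : p -ᵥ q = 0
  · rw [h, Submodule.span_zero_singleton, finrank_bot]; omega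
  · rw [finrank_span_singleton h]

theorem finrank_single (p : Fin 3 → ℝ) (W : Set (Fin 3 → ℝ)) (hW : W ⊆ {p}) :
    Module.finrank ℝ (vectorSpan ℝ (convexHull ℝ W)) = 0 := by
  rw [vectorSpan_hull]
  have : vectorSpan ℝ W ≤ ⊥ := by
    rw [← vectorSpan_singleton ℝ p]; exact vectorSpan_mono ℝ hW
  rw [le_bot_iff.1 this]; simp

theorem finrank_pair (p q : Fin 3 → ℝ) (h : p ≠ q) :
    Module.finrank ℝ (vectorSpan ℝ (convexHull ℝ ({p, q} : Set (Fin 3 → ℝ)))) = 1 := by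
  rw [vectorSpan_hull, vectorSpan_pair, finrank_span_singleton (vsub_ne_zero.2 h)]

theorem finrank_ker (l : (Fin 3 → ℝ) →ₗ[ℝ] ℝ) (hl : l ≠ 0) :
    Module.finrank ℝ (LinearMap.ker l) = 2 := by
  have := Module.Dual.finrank_ker_add_one_of_ne_zero hl
  simp at this
  omega

theorem vectorSpan_le_ker (S : Set (Fin 3 → ℝ)) (l : (Fin 3 → ℝ) →ₗ[ℝ] ℝ) (c : ℝ)
    (h : ∀ x ∈ S, l x = c) : vectorSpan ℝ S ≤ LinearMap.ker l := by
  rw [vectorSpan_def, Submodule.span_le]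
  rintro v ⟨x, hx, y, hy, rfl⟩
  simp [h x hx, h y hy]

/-- An edge of `G` whose end points lie in a convex subset `F` of `G` is an edge of `F`. -/
theorem edge_of (G F : Set (Fin 3 → ℝ)) (p q : Fin 3 → ℝ) (hpq : p ≠ q)
    (hE : IsExposed ℝ G (convexHull ℝ {p, q})) (hFG : F ⊆ G) (hF : Convex ℝ F)
    (hp : p ∈ F) (hq : q ∈ F) : IsFace 1 F (convexHull ℝ {p, q}) := by
  refine ⟨hE.mono hFG (convexHull_min ?_ hF), ⟨p, subset_convexHull ℝ _ (by simp)⟩,
    finrank_pair p q hpq⟩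
  rintro x (rfl | rfl)
  exacts [hp, hq]

/-- A vertex of `G` lying in a subset `F` of `G` is a vertex of `F`. -/
theorem vertex_of (G F : Set (Fin 3 → ℝ)) (p : Fin 3 → ℝ)
    (hE : IsExposed ℝ G (convexHull ℝ {p})) (hFG : F ⊆ G) (hp : p ∈ F) :
    IsFace 0 F (convexHull ℝ {p}) := by
  refine ⟨hE.mono hFG (by simpa using hp), ⟨p, by simp⟩, finrank_single p _ subset_rfl⟩

/-- A pyramid is not contained in a plane. -/
theorem not_pyramid_of_planar (Q : Set (Fin 3 → ℝ)) (l : (Fin 3 → ℝ) →L[ℝ] ℝ) (c : ℝ)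
    (hl : l ≠ 0) (h : ∀ x ∈ Q, l x = c) : ¬ IsPyramid Q := by
  rintro ⟨B, a, ⟨-, hB⟩, ha, rfl⟩
  have hl' : (l : (Fin 3 → ℝ) →ₗ[ℝ] ℝ) ≠ 0 := fun h0 =>
    hl (ContinuousLinearMap.ext fun x => LinearMap.congr_fun h0 x)
  have hBc : ∀ x ∈ B, l x = c := fun x hx => h x (subset_convexHull ℝ _ (mem_insert_of_mem _ hx))
  have hac : l a = c := h a (subset_convexHull ℝ _ (mem_insert _ _))
  have hle := vectorSpan_le_ker B (l : (Fin 3 → ℝ) →ₗ[ℝ] ℝ) c hBc
  have heq : vectorSpan ℝ B = LinearMap.ker (l : (Fin 3 → ℝ) →ₗ[ℝ] ℝ) :=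
    Submodule.eq_of_le_of_finrank_eq hle (by rw [hB, finrank_ker _ hl'])
  obtain ⟨b, hb⟩ : B.Nonempty := by
    by_contra hne
    rw [not_nonempty_iff_eq_empty] at hne
    rw [hne, vectorSpan_empty] at hB
    simp at hB
  apply ha
  have h1 : a -ᵥ b ∈ (affineSpan ℝ B).direction := by
    rw [direction_affineSpan, heq]
    simp [hac, hBc b hb]
  have := AffineSubspace.vadd_mem_of_mem_direction h1 (subset_affineSpan ℝ B hb)
  simpa using this

/-- All extreme points of a pyramid but one lie in a plane. -/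
theorem pyramid_extreme (Q : Set (Fin 3 → ℝ)) (hQ : IsPyramid Q) :
    ∃ (α β γ k : ℝ) (a : Fin 3 → ℝ), ¬ (α = 0 ∧ β = 0 ∧ γ = 0) ∧
      ∀ x ∈ Q.extremePoints ℝ, x = a ∨ α * x 0 + β * x 1 + γ * x 2 = k := by
  obtain ⟨B, a, ⟨-, hB⟩, -, rfl⟩ := hQ
  have hlt : vectorSpan ℝ B < ⊤ := by
    rw [lt_top_iff_ne_top]
    intro h
    rw [h] at hB
    simp at hB
  obtain ⟨f, hf0, hf⟩ := Submodule.exists_le_ker_of_lt_top _ hlt
  obtain ⟨α, β, γ, hl, h0⟩ := lin_coeffs (LinearMap.toContinuousLinearMap f)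
  obtain ⟨b, hb⟩ : B.Nonempty := by
    by_contra hne
    rw [not_nonempty_iff_eq_empty] at hne
    rw [hne, vectorSpan_empty] at hB
    simp at hB
  refine ⟨α, β, γ, f b, a, fun h => hf0 ?_, fun x hx => ?_⟩
  · have := h0 h.1 h.2.1 h.2.2
    refine LinearMap.ext fun x => ?_
    exact ContinuousLinearMap.ext_iff.1 this x
  · rcases extremePoints_convexHull_subset hx with h | h
    · exact Or.inl h
    · right
      have h1 : f (x -ᵥ b) = 0 := hf (vsub_mem_vectorSpan ℝ h hb)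
      rw [← hl x]
      simp only [vsub_eq_sub, map_sub] at h1
      show f x = f b
      linarith

/-- The affine span of a set containing four suitable points is everything. -/
theorem interior_hull_nonempty (V : Set (Fin 3 → ℝ)) (hne : V.Nonempty)
    (h : ∀ x : Fin 3 → ℝ, x ∈ vectorSpan ℝ V) : (interior (convexHull ℝ V)).Nonempty := by
  rw [interior_convexHull_nonempty_iff_affineSpan_eq_top,
    AffineSubspace.affineSpan_eq_top_iff_vectorSpan_eq_top_of_nonempty ℝ _ _ hne, eq_top_iff]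
  exact fun x _ => h x

end Pool.Agent.MP_3a21c3_co

end

-- part MP_3a21c3_co.Roof
section

/-! Roof-shaped domes over the rectangle `[0,9] × [0,6]`. -/

open Set

namespace Pool.Agent.MP_3a21c3_co

/-- the six vertices of a roof with ridge from `(s,r,s)` to `(9-s,r,s)` -/
def roofV (s r : ℝ) : Set (Fin 3 → ℝ) :=
  {![0, 0, 0], ![9, 0, 0], ![9, 6, 0], ![0, 6, 0], ![s, r, s], ![9 - s, r, s]}

/-- the four vertices of the base -/
def baseV : Set (Fin 3 → ℝ) := {![0, 0, 0], ![9, 0, 0], ![9, 6, 0], ![0, 6, 0]}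

theorem roofV_finite (s r : ℝ) : (roofV s r).Finite := by
  unfold roofV; exact toFinite _

theorem forall_roofV {s r : ℝ} {p : (Fin 3 → ℝ) → Prop} :
    (∀ v ∈ roofV s r, p v) ↔ p ![0, 0, 0] ∧ p ![9, 0, 0] ∧ p ![9, 6, 0] ∧ p ![0, 6, 0] ∧
      p ![s, r, s] ∧ p ![9 - s, r, s] := by
  simp [roofV]

theorem forall_baseV {p : (Fin 3 → ℝ) → Prop} :
    (∀ v ∈ baseV, p v) ↔ p ![0, 0, 0] ∧ p ![9, 0, 0] ∧ p ![9, 6, 0] ∧ p ![0, 6, 0] := by
  simp [baseV]

theorem baseV_subset (s r : ℝ) : baseV ⊆ roofV s r := by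
  intro v hv
  simp only [baseV, roofV, mem_insert_iff, mem_singleton_iff] at hv ⊢
  tauto

theorem roof_polyhedron {s r : ℝ} (hs : 0 < s) : IsPolyhedron (convexHull ℝ (roofV s r)) := by
  refine ⟨⟨(roofV_finite s r).toFinset, by simp⟩, ?_⟩
  have h0 : (![0, 0, 0] : Fin 3 → ℝ) ∈ roofV s r := by simp [roofV]
  refine interior_hull_nonempty _ ⟨_, h0⟩ fun x => ?_
  have h1 := vsub_mem_vectorSpan ℝ (show (![9, 0, 0] : Fin 3 → ℝ) ∈ roofV s r by simp [roofV]) h0
  have h2 := vsub_mem_vectorSpan ℝ (show (![0, 6, 0] : Fin 3 → ℝ) ∈ roofV s r by simp [roofV]) h0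
  have h3 := vsub_mem_vectorSpan ℝ (show (![s, r, s] : Fin 3 → ℝ) ∈ roofV s r by simp [roofV]) h0
  have := Submodule.add_mem _ (Submodule.add_mem _ (Submodule.smul_mem _ ((x 0 - x 2) / 9) h1)
    (Submodule.smul_mem _ ((x 1 - r * x 2 / s) / 6) h2)) (Submodule.smul_mem _ (x 2 / s) h3)
  convert this using 1
  ext i
  fin_cases i <;> simp <;> field_simp <;> ring

theorem base_dim : Module.finrank ℝ (vectorSpan ℝ (convexHull ℝ baseV)) = 2 := by
  have hl : ((fn 0 0 1 : (Fin 3 → ℝ) →L[ℝ] ℝ) : (Fin 3 → ℝ) →ₗ[ℝ] ℝ) ≠ 0 := by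
    intro h
    have := LinearMap.congr_fun h ![0, 0, 1]
    simp [fn_apply] at this
  suffices h : vectorSpan ℝ baseV = LinearMap.ker
      ((fn 0 0 1 : (Fin 3 → ℝ) →L[ℝ] ℝ) : (Fin 3 → ℝ) →ₗ[ℝ] ℝ) by
    rw [vectorSpan_hull, h, finrank_ker _ hl]
  apply le_antisymm
  · exact vectorSpan_le_ker _ _ 0 (forall_baseV.2 (by simp [fn_apply]))
  · intro x hx
    have hx2 : x 2 = 0 := by simpa [fn_apply] using hx
    have h0 : (![0, 0, 0] : Fin 3 → ℝ) ∈ baseV := by simp [baseV]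
    have h1 := vsub_mem_vectorSpan ℝ (show (![9, 0, 0] : Fin 3 → ℝ) ∈ baseV by simp [baseV]) h0
    have h2 := vsub_mem_vectorSpan ℝ (show (![0, 6, 0] : Fin 3 → ℝ) ∈ baseV by simp [baseV]) h0
    have := Submodule.add_mem _ (Submodule.smul_mem _ (x 0 / 9) h1)
      (Submodule.smul_mem _ (x 1 / 6) h2)
    convert this using 1
    ext i
    fin_cases i <;> simp [hx2]

theorem vec_eq {a b c a' b' c' : ℝ} :
    (![a, b, c] : Fin 3 → ℝ) = ![a', b', c'] ↔ a = a' ∧ b = b' ∧ c = c' := by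
  simp

/-- exposed subsets of a roof spanned by some of its vertices -/
theorem roof_exposed {s r : ℝ} (W : Set (Fin 3 → ℝ)) (α β γ M : ℝ) (hW : W ⊆ roofV s r)
    (h : ∀ v ∈ roofV s r, α * v 0 + β * v 1 + γ * v 2 ≤ M ∧
      (α * v 0 + β * v 1 + γ * v 2 = M ↔ v ∈ W)) :
    IsExposed ℝ (convexHull ℝ (roofV s r)) (convexHull ℝ W) := by
  refine exposed_of _ W (fn α β γ) M (fun v hv => by rw [fn_apply]; exact (h v hv).1) ?_
  ext v
  simp only [mem_ofPred_eq, fn_apply]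
  exact ⟨fun hv => ⟨hW hv, (h v (hW hv)).2.2 hv⟩, fun hv => (h v hv.1).2.1 hv.2⟩

theorem roof_base {s r : ℝ} (hs : 0 < s) :
    IsFace 2 (convexHull ℝ (roofV s r)) (convexHull ℝ baseV) := by
  refine ⟨roof_exposed baseV 0 0 (-1) 0 (baseV_subset s r) ?_,
    ⟨![0, 0, 0], subset_convexHull ℝ _ (by simp [baseV])⟩, base_dim⟩
  rw [forall_roofV]
  simp [baseV, hs.le, hs.ne']

theorem roof_dome {s r : ℝ} (hs : 0 < s) (hs' : s < 9 - s) (hr : 0 < r) (hr' : r < 6) :
    IsDome (convexHull ℝ (roofV s r)) (convexHull ℝ baseV) := by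
  refine ⟨roof_polyhedron hs, roof_base hs, ?_⟩
  rintro F ⟨hF, hne, hdim⟩ -
  obtain ⟨l, M, hV, hFeq⟩ := exposed_struct _ F hF hne
  obtain ⟨α, β, γ, hl, -⟩ := lin_coeffs l
  have hFG := hF.subset
  have hFc : Convex ℝ F := hF.convex (convex_convexHull ℝ _)
  have hXG : convexHull ℝ baseV ⊆ convexHull ℝ (roofV s r) := convexHull_mono (baseV_subset s r)
  have hin : ∀ v ∈ roofV s r, l v = M → v ∈ F := fun v hv h => by
    rw [hFeq]; exact subset_convexHull ℝ _ ⟨hv, h⟩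
  have key : ∀ p ∈ baseV, ∀ q ∈ baseV, p ≠ q →
      IsExposed ℝ (convexHull ℝ (roofV s r)) (convexHull ℝ {p, q}) → l p = M → l q = M →
      ∃ C, IsFace 1 F C ∧ IsFace 1 (convexHull ℝ baseV) C := fun p hp q hq hpq hE h1 h2 =>
    ⟨_, edge_of _ F p q hpq hE hFG hFc (hin p (baseV_subset s r hp) h1)
        (hin q (baseV_subset s r hq) h2),
      edge_of _ _ p q hpq hE hXG (convex_convexHull ℝ _) (subset_convexHull ℝ _ hp)
        (subset_convexHull ℝ _ hq)⟩
  have h9s : 0 < 9 - s := by linarith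
  have hs9 : s < 9 := by linarith
  obtain ⟨ia, ib, ic, id, iu, iw⟩ := forall_roofV.1 hV
  have ea : l ![0, 0, 0] = 0 := by simp [hl]
  have eb : l ![9, 0, 0] = α * 9 := by simp [hl]
  have ec : l ![9, 6, 0] = α * 9 + β * 6 := by simp [hl]
  have ed : l ![0, 6, 0] = β * 6 := by simp [hl]
  have eu : l ![s, r, s] = α * s + β * r + γ * s := by simp [hl]
  have ew : l ![9 - s, r, s] = α * (9 - s) + β * r + γ * s := by simp [hl]
  by_cases hab : l ![0, 0, 0] = M ∧ l ![9, 0, 0] = M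
  · refine key _ (by simp [baseV]) _ (by simp [baseV]) (by simp) ?_ hab.1 hab.2
    refine roof_exposed _ 0 (-1) 0 0 (by simp [roofV, insert_subset_iff]) ?_
    rw [forall_roofV]
    simp [hr.le, hr.ne']
  by_cases hbc : l ![9, 0, 0] = M ∧ l ![9, 6, 0] = M
  · refine key _ (by simp [baseV]) _ (by simp [baseV]) (by simp) ?_ hbc.1 hbc.2
    refine roof_exposed _ 1 0 0 9 (by simp [roofV, insert_subset_iff]) ?_
    rw [forall_roofV]
    simp [hs.le, hs.ne', hs9.le, hs9.ne]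
  by_cases hcd : l ![9, 6, 0] = M ∧ l ![0, 6, 0] = M
  · refine key _ (by simp [baseV]) _ (by simp [baseV]) (by simp) ?_ hcd.1 hcd.2
    refine roof_exposed _ 0 1 0 6 (by simp [roofV, insert_subset_iff]) ?_
    rw [forall_roofV]
    simp [hr'.le, hr'.ne]
  by_cases hda : l ![0, 6, 0] = M ∧ l ![0, 0, 0] = M
  · refine key _ (by simp [baseV]) _ (by simp [baseV]) (by simp) ?_ hda.1 hda.2
    refine roof_exposed _ (-1) 0 0 0 (by simp [roofV, insert_subset_iff]) ?_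
    rw [forall_roofV]
    simp [hs.le, hs.ne', hs9.le, h9s.ne', sub_eq_zero, hs9.ne]
  exfalso
  have hpair : ∃ p q : Fin 3 → ℝ, ∀ v ∈ roofV s r, l v = M → v = p ∨ v = q := by
    by_cases huw : l ![s, r, s] = M ∧ l ![9 - s, r, s] = M
    · have hα : α = 0 := by
        have : α * (9 - s - s) = 0 := by linarith [huw.1, huw.2]
        rcases mul_eq_zero.1 this with h | h
        · exact h
        · linarith
      refine ⟨![s, r, s], ![9 - s, r, s], forall_roofV.2 ⟨?_, ?_, ?_, ?_, ?_, ?_⟩⟩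
      · intro h; exact absurd ⟨h, by rw [eb, hα]; linarith⟩ hab
      · intro h; exact absurd ⟨by rw [eb, hα] at h; linarith, h⟩ hab
      · intro h; exact absurd ⟨h, by rw [ec, hα] at h; linarith⟩ hcd
      · intro h; exact absurd ⟨by rw [ec, hα]; linarith, h⟩ hcd
      · intro _; exact Or.inl rfl
      · intro _; exact Or.inr rfl
    · obtain ⟨q, hq1, hq2⟩ : ∃ q : Fin 3 → ℝ, (l ![s, r, s] = M → ![s, r, s] = q) ∧
          (l ![9 - s, r, s] = M → ![9 - s, r, s] = q) := by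
        by_cases hu : l ![s, r, s] = M
        · exact ⟨_, fun _ => rfl, fun h => absurd ⟨hu, h⟩ huw⟩
        · exact ⟨_, fun h => absurd h hu, fun _ => rfl⟩
      obtain ⟨p, hp1, hp2, hp3, hp4⟩ : ∃ p : Fin 3 → ℝ, (l ![0, 0, 0] = M → ![0, 0, 0] = p) ∧
          (l ![9, 0, 0] = M → ![9, 0, 0] = p) ∧ (l ![9, 6, 0] = M → ![9, 6, 0] = p) ∧
          (l ![0, 6, 0] = M → ![0, 6, 0] = p) := by
        by_cases ha : l ![0, 0, 0] = M
        · exact ⟨_, fun _ => rfl, fun h => absurd ⟨ha, h⟩ hab,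
            fun h => absurd ⟨ha, by linarith⟩ hab, fun h => absurd ⟨h, ha⟩ hda⟩
        by_cases hb : l ![9, 0, 0] = M
        · exact ⟨_, fun h => absurd h ha, fun _ => rfl, fun h => absurd ⟨hb, h⟩ hbc,
            fun h => absurd (by linarith) ha⟩
        by_cases hc : l ![9, 6, 0] = M
        · exact ⟨_, fun h => absurd h ha, fun h => absurd h hb, fun _ => rfl,
            fun h => absurd ⟨hc, h⟩ hcd⟩
        · exact ⟨_, fun h => absurd h ha, fun h => absurd h hb, fun h => absurd h hc,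
            fun _ => rfl⟩
      exact ⟨p, q, forall_roofV.2 ⟨fun h => Or.inl (hp1 h), fun h => Or.inl (hp2 h),
        fun h => Or.inl (hp3 h), fun h => Or.inl (hp4 h), fun h => Or.inr (hq1 h),
        fun h => Or.inr (hq2 h)⟩⟩
  obtain ⟨p, q, hpq⟩ := hpair
  have := finrank_pair_le p q {v ∈ roofV s r | l v = M} (fun v hv => hpq v hv.1 hv.2)
  rw [← hFeq, hdim] at this
  omega

end Pool.Agent.MP_3a21c3_co

end

-- part MP_3a21c3_co.NoCut
section

/-! No admissible first cut exists for the pair of roofs `roofV 3 3` (outer), `roofV 2 4` (inner). -/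

open Set

namespace Pool.Agent.MP_3a21c3_co

/-- An edge of the hull of a set contains two different points of the set. -/
theorem edge_two (V e : Set (Fin 3 → ℝ)) (he : IsFace 1 (convexHull ℝ V) e) :
    ∃ p ∈ V, ∃ q ∈ V, p ≠ q ∧ p ∈ e ∧ q ∈ e := by
  obtain ⟨hE, hne, hdim⟩ := he
  obtain ⟨l, M, -, heq⟩ := exposed_struct V e hE hne
  have hne' : {v ∈ V | l v = M}.Nonempty := by
    rw [heq] at hne; exact convexHull_nonempty_iff.1 hne
  obtain ⟨p, hp⟩ := hne'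
  by_contra hcon
  have hsub : {v ∈ V | l v = M} ⊆ {p} := by
    intro q hq
    by_contra hqp
    exact hcon ⟨q, hq.1, p, hp.1, hqp, heq ▸ subset_convexHull ℝ _ hq,
      heq ▸ subset_convexHull ℝ _ hp⟩
  have := finrank_single p _ hsub
  rw [← heq, hdim] at this
  omega

theorem outer_ineq (x : Fin 3 → ℝ) (hx : x ∈ convexHull ℝ (roofV 3 3)) :
    0 ≤ x 2 ∧ x 2 ≤ x 0 ∧ x 2 ≤ 9 - x 0 ∧ x 2 ≤ x 1 ∧ x 2 ≤ 6 - x 1 := by
  have h1 := (hull_le _ (fn 0 0 (-1)) 0 (forall_roofV.2 (by simp [fn_apply])) x hx).1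
  have h2 := (hull_le _ (fn (-1) 0 1) 0 (forall_roofV.2 (by norm_num [fn_apply, Matrix.cons_val_two])) x hx).1
  have h3 := (hull_le _ (fn 1 0 1) 9 (forall_roofV.2 (by norm_num [fn_apply, Matrix.cons_val_two])) x hx).1
  have h4 := (hull_le _ (fn 0 (-1) 1) 0 (forall_roofV.2 (by norm_num [fn_apply, Matrix.cons_val_two])) x hx).1
  have h5 := (hull_le _ (fn 0 1 1) 6 (forall_roofV.2 (by norm_num [fn_apply, Matrix.cons_val_two])) x hx).1
  rw [fn_apply] at h1 h2 h3 h4 h5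
  refine ⟨?_, ?_, ?_, ?_, ?_⟩ <;> linarith

theorem seg_mem {V : Set (Fin 3 → ℝ)} {p q x : Fin 3 → ℝ} (hp : p ∈ V) (hq : q ∈ V) (a : ℝ)
    (h0 : 0 ≤ a) (h1 : a ≤ 1) (hx : x = a • p + (1 - a) • q) : x ∈ convexHull ℝ V := by
  rw [hx]
  exact convex_convexHull ℝ V (subset_convexHull ℝ V hp) (subset_convexHull ℝ V hq) h0
    (by linarith) (by ring)

theorem inner_subset : convexHull ℝ (roofV 2 4) ⊆ convexHull ℝ (roofV 3 3) := by
  refine convexHull_min (forall_roofV.2 ⟨?_, ?_, ?_, ?_, ?_, ?_⟩) (convex_convexHull ℝ _)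
  · exact subset_convexHull ℝ _ (by simp [roofV])
  · exact subset_convexHull ℝ _ (by simp [roofV])
  · exact subset_convexHull ℝ _ (by simp [roofV])
  · exact subset_convexHull ℝ _ (by simp [roofV])
  · refine seg_mem (p := ![3, 3, 3]) (q := ![0, 6, 0]) (by simp [roofV]) (by simp [roofV])
      (2 / 3) (by norm_num) (by norm_num) ?_
    ext i; fin_cases i <;> norm_num
  · refine seg_mem (p := ![9 - 3, 3, 3]) (q := ![9, 6, 0]) (by simp [roofV]) (by simp [roofV])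
      (2 / 3) (by norm_num) (by norm_num) ?_
    ext i; fin_cases i <;> norm_num

theorem outer_ne_inner : convexHull ℝ (roofV 3 3) ≠ convexHull ℝ (roofV 2 4) := by
  intro h
  have h1 : (![3, 3, 3] : Fin 3 → ℝ) ∈ convexHull ℝ (roofV 2 4) := by
    rw [← h]; exact subset_convexHull ℝ _ (by simp [roofV])
  have := (hull_le _ (fn 0 0 1) 2 (forall_roofV.2 (by norm_num [fn_apply, Matrix.cons_val_two])) _ h1).1
  norm_num [fn_apply, Matrix.cons_val_two] at this

theorem extreme_of (Q : Set (Fin 3 → ℝ)) (p : Fin 3 → ℝ) (hp : p ∈ Q) (α β γ : ℝ)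
    (h : ∀ y ∈ Q, α * y 0 + β * y 1 + γ * y 2 ≤ α * p 0 + β * p 1 + γ * p 2 ∧
      (α * p 0 + β * p 1 + γ * p 2 ≤ α * y 0 + β * y 1 + γ * y 2 →
        y 0 = p 0 ∧ y 1 = p 1 ∧ y 2 = p 2)) : p ∈ Q.extremePoints ℝ := by
  apply exposedPoints_subset_extremePoints
  refine ⟨hp, fn α β γ, fun y hy => ?_⟩
  simp only [fn_apply]
  refine ⟨(h y hy).1, fun hle => ?_⟩
  obtain ⟨h0, h1, h2⟩ := (h y hy).2 hle
  ext i; fin_cases i
  exacts [h0, h1, h2]

/-- The wedge cut off by a plane through the edge `y = z = 0` is not a pyramid. -/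
theorem wedge_not_pyramid (μ γ : ℝ) (hμ : 0 < μ) (h1 : μ < γ) (Q : Set (Fin 3 → ℝ))
    (hQ : ∀ x, x ∈ Q ↔ x ∈ convexHull ℝ (roofV 3 3) ∧ μ * x 1 ≤ γ * x 2) : ¬ IsPyramid Q := by
  intro hpyr
  obtain ⟨α', β', γ', k, a0, hn, hext⟩ := pyramid_extreme Q hpyr
  obtain ⟨t, ht0, ht3, ht⟩ : ∃ t : ℝ, 0 < t ∧ t < 3 ∧ μ * (6 - t) = γ * t := by
    have hpos : 0 < γ + μ := by linarith
    refine ⟨6 * μ / (γ + μ), by positivity, ?_, ?_⟩
    · rw [div_lt_iff₀ hpos]; linarith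
    · field_simp; ring
  have hI : ∀ y ∈ Q, 0 ≤ y 2 ∧ y 2 ≤ y 0 ∧ y 2 ≤ 9 - y 0 ∧ y 2 ≤ y 1 ∧ y 2 ≤ 6 - y 1 ∧
      μ * y 1 ≤ γ * y 2 := fun y hy => by
    obtain ⟨h, h'⟩ := (hQ y).1 hy
    obtain ⟨a, b, c, d, e⟩ := outer_ineq y h
    exact ⟨a, b, c, d, e, h'⟩
  have mV : ∀ v ∈ roofV 3 3, μ * v 1 ≤ γ * v 2 → v ∈ Q := fun v hv h =>
    (hQ v).2 ⟨subset_convexHull ℝ _ hv, h⟩
  have ea : (![0, 0, 0] : Fin 3 → ℝ) ∈ Q.extremePoints ℝ := by
    refine extreme_of Q _ (mV _ (by simp [roofV]) (by simp)) (-1) (-1) 1 fun y hy => ?_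
    obtain ⟨a, b, c, d, e, f⟩ := hI y hy
    simp
    exact ⟨by linarith, fun h => ⟨by linarith, by linarith, by linarith⟩⟩
  have eb : (![9, 0, 0] : Fin 3 → ℝ) ∈ Q.extremePoints ℝ := by
    refine extreme_of Q _ (mV _ (by simp [roofV]) (by simp)) 1 (-1) 1 fun y hy => ?_
    obtain ⟨a, b, c, d, e, f⟩ := hI y hy
    simp
    exact ⟨by linarith, fun h => ⟨by linarith, by linarith, by linarith⟩⟩
  have eu : (![3, 3, 3] : Fin 3 → ℝ) ∈ Q.extremePoints ℝ := by
    refine extreme_of Q _ (mV _ (by simp [roofV]) (by simp; linarith)) (-1) 0 3 fun y hy => ?_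
    obtain ⟨a, b, c, d, e, f⟩ := hI y hy
    simp
    exact ⟨by linarith, fun h => ⟨by linarith, by linarith, by linarith⟩⟩
  have ew : (![9 - 3, 3, 3] : Fin 3 → ℝ) ∈ Q.extremePoints ℝ := by
    refine extreme_of Q _ (mV _ (by simp [roofV]) (by simp; linarith)) 1 0 3 fun y hy => ?_
    obtain ⟨a, b, c, d, e, f⟩ := hI y hy
    simp
    exact ⟨by linarith, fun h => ⟨by linarith, by linarith, by linarith⟩⟩
  have solve : ∀ y1 y2 : ℝ, y2 = 6 - y1 → μ * y1 = γ * y2 → y2 = t := by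
    intro y1 y2 e1 e2
    have : (γ + μ) * (y2 - t) = 0 := by
      have : y1 = 6 - y2 := by linarith
      rw [this] at e2
      linarith
    rcases mul_eq_zero.1 this with h | h <;> linarith
  have eu' : (![t, 6 - t, t] : Fin 3 → ℝ) ∈ Q.extremePoints ℝ := by
    refine extreme_of Q _ ((hQ _).2 ⟨?_, by simp [ht]⟩) (-1) (1 + μ) (2 - γ) fun y hy => ?_
    · refine seg_mem (p := ![3, 3, 3]) (q := ![0, 6, 0]) (by simp [roofV]) (by simp [roofV])
        (t / 3) (by linarith) (by linarith) ?_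
      ext i; fin_cases i <;> simp <;> ring
    · obtain ⟨a, b, c, d, e, f⟩ := hI y hy
      simp
      refine ⟨by linarith, fun h => ?_⟩
      have := solve (y 1) (y 2) (by linarith) (by linarith)
      exact ⟨by linarith, by linarith, this⟩
  have ew' : (![9 - t, 6 - t, t] : Fin 3 → ℝ) ∈ Q.extremePoints ℝ := by
    refine extreme_of Q _ ((hQ _).2 ⟨?_, by simp [ht]⟩) 1 (1 + μ) (2 - γ) fun y hy => ?_
    · refine seg_mem (p := ![9 - 3, 3, 3]) (q := ![9, 6, 0]) (by simp [roofV]) (by simp [roofV])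
        (t / 3) (by linarith) (by linarith) ?_
      ext i; fin_cases i <;> simp <;> ring
    · obtain ⟨a, b, c, d, e, f⟩ := hI y hy
      simp
      refine ⟨by linarith, fun h => ?_⟩
      have := solve (y 1) (y 2) (by linarith) (by linarith)
      exact ⟨by linarith, by linarith, this⟩
  have two : ∀ p ∈ Q.extremePoints ℝ, ∀ q ∈ Q.extremePoints ℝ, p ≠ q →
      α' * p 0 + β' * p 1 + γ' * p 2 = k ∨ α' * q 0 + β' * q 1 + γ' * q 2 = k := by
    intro p hp q hq hpq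
    rcases hext p hp with h | h
    · rcases hext q hq with h' | h'
      · exact absurd (h.trans h'.symm) hpq
      · exact Or.inr h'
    · exact Or.inl h
  have hab := two _ ea _ eb (by simp)
  have huw := two _ eu _ ew (by norm_num)
  have huw' := two _ eu' _ ew' (by simp; intro h; linarith)
  have hau := two _ ea _ eu (by simp)
  have haw := two _ ea _ ew (by simp)
  have hbu := two _ eb _ eu (by simp)
  have hbw := two _ eb _ ew (by simp)
  simp only [Matrix.cons_val_zero, Matrix.cons_val_one, Matrix.cons_val_two, Matrix.head_cons,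
    Matrix.tail_cons] at hab huw huw' hau haw hbu hbw
  have hα : α' = 0 := by
    rcases hau with h1 | h1 <;> rcases haw with h2 | h2 <;> rcases hbu with h3 | h3 <;>
      rcases hbw with h4 | h4 <;> linarith
  subst hα
  have hk : k = 0 := by rcases hab with h | h <;> linarith
  have hβγ : γ' = - β' := by rcases huw with h | h <;> linarith
  have h3 : β' * (6 - 2 * t) = 0 := by
    subst hβγ
    rcases huw' with h | h <;> linarith
  have hβ : β' = 0 := by
    rcases mul_eq_zero.1 h3 with h | h <;> linarith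
  exact hn ⟨rfl, hβ, by linarith⟩

theorem no_cut (P' : Set (Fin 3 → ℝ)) :
    ¬ PyramidCut (convexHull ℝ baseV) (convexHull ℝ (roofV 2 4)) (convexHull ℝ (roofV 3 3)) P' := by
  rintro ⟨Q, hQ, l, c, hl0, ⟨e, he, hec⟩, -, hD, hQeq, -⟩
  obtain ⟨α, β, γ, hl, -⟩ := lin_coeffs l
  obtain ⟨p, hp, q, hq, hpq, hpe, hqe⟩ := edge_two baseV e he
  have h1 := hec p hpe
  have h2 := hec q hqe
  have hDV : ∀ v ∈ roofV 2 4, l v ≤ c := fun v hv => hD v (subset_convexHull ℝ _ hv)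
  obtain ⟨ia, ib, ic, id, iu, iw⟩ := forall_roofV.1 hDV
  have planar : (∀ v ∈ roofV 3 3, l v ≤ c) → False := fun h => by
    refine not_pyramid_of_planar Q l c hl0 (fun x hx => ?_) hQ
    rw [hQeq] at hx
    exact le_antisymm (hull_le _ l c h x hx.1).1 hx.2
  have planar' : α * 3 + β * 3 + γ * 3 ≤ c → α * 6 + β * 3 + γ * 3 ≤ c → False := fun g1 g2 =>
    planar (forall_roofV.2 ⟨ia, ib, ic, id, by simpa [hl] using g1, by norm_num [hl]; exact g2⟩)
  have wedge : α = 0 → c = 0 → False := by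
    intro hα hc
    simp only [hl, Matrix.cons_val_zero, Matrix.cons_val_one, Matrix.cons_val_two,
      Matrix.head_cons, Matrix.tail_cons] at id iu
    by_cases hγ : γ ≤ - β
    · exact planar' (by linarith) (by linarith)
    · refine wedge_not_pyramid (-β) γ (by linarith) (by linarith) Q (fun x => ?_) hQ
      rw [hQeq]
      simp only [mem_inter_iff, mem_ofPred_eq, hl, hα, hc]
      exact and_congr_right fun _ => ⟨fun h => by linarith, fun h => by linarith⟩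
  simp only [baseV, mem_insert_iff, mem_singleton_iff] at hp hq
  rcases hp with rfl | rfl | rfl | rfl <;> rcases hq with rfl | rfl | rfl | rfl <;>
    simp only [hl, Matrix.cons_val_zero, Matrix.cons_val_one, Matrix.cons_val_two,
      Matrix.head_cons, Matrix.tail_cons] at h1 h2 ia ib ic id iu iw <;>
    first
      | exact hpq rfl
      | exact wedge (by linarith) (by linarith)
      | exact planar' (by linarith) (by linarith)

theorem not_reach : ¬ Relation.ReflTransGen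
    (PyramidCut (convexHull ℝ baseV) (convexHull ℝ (roofV 2 4)))
    (convexHull ℝ (roofV 3 3)) (convexHull ℝ (roofV 2 4)) := by
  intro h
  rcases h.cases_head with h | ⟨P', h, -⟩
  · exact outer_ne_inner h
  · exact no_cut P' h

end Pool.Agent.MP_3a21c3_co

end
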