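import Pool.Agent.MP_3a21c3_co.Mg.NoCut

/-! A g-dome inside the roof `roofV 3 3` that no sequence of cuts through base edges reaches,
whatever the shape of the removed pieces. -/

open Set

namespace Pool.Agent.MP_3a21c3_co

/-- the six vertices of the skew g-dome -/
def skewV : Set (Fin 3 → ℝ) :=
  {![0, 0, 0], ![9, 0, 0], ![9, 6, 0], ![0, 6, 0], ![2, 2, 2], ![7, 4, 2]}

theorem forall_skewV {p : (Fin 3 → ℝ) → Prop} :
    (∀ v ∈ skewV, p v) ↔ p ![0, 0, 0] ∧ p ![9, 0, 0] ∧ p ![9, 6, 0] ∧ p ![0, 6, 0] ∧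
      p ![2, 2, 2] ∧ p ![7, 4, 2] := by
  simp [skewV]

theorem baseV_subset_skew : baseV ⊆ skewV := by
  intro v hv
  simp only [baseV, skewV, mem_insert_iff, mem_singleton_iff] at hv ⊢
  tauto

theorem skew_polyhedron : IsPolyhedron (convexHull ℝ skewV) := by
  have hfin : skewV.Finite := by unfold skewV; exact toFinite _
  refine ⟨⟨hfin.toFinset, by simp⟩, ?_⟩
  have h0 : (![0, 0, 0] : Fin 3 → ℝ) ∈ skewV := by simp [skewV]
  refine interior_hull_nonempty _ ⟨_, h0⟩ fun x => ?_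
  have h1 := vsub_mem_vectorSpan ℝ (show (![9, 0, 0] : Fin 3 → ℝ) ∈ skewV by simp [skewV]) h0
  have h2 := vsub_mem_vectorSpan ℝ (show (![0, 6, 0] : Fin 3 → ℝ) ∈ skewV by simp [skewV]) h0
  have h3 := vsub_mem_vectorSpan ℝ (show (![2, 2, 2] : Fin 3 → ℝ) ∈ skewV by simp [skewV]) h0
  have := Submodule.add_mem _ (Submodule.add_mem _ (Submodule.smul_mem _ ((x 0 - x 2) / 9) h1)
    (Submodule.smul_mem _ ((x 1 - x 2) / 6) h2)) (Submodule.smul_mem _ (x 2 / 2) h3)
  convert this using 1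
  ext i
  fin_cases i <;> simp

theorem skew_exposed (W : Set (Fin 3 → ℝ)) (α β γ M : ℝ) (hW : W ⊆ skewV)
    (h : ∀ v ∈ skewV, α * v 0 + β * v 1 + γ * v 2 ≤ M ∧
      (α * v 0 + β * v 1 + γ * v 2 = M ↔ v ∈ W)) :
    IsExposed ℝ (convexHull ℝ skewV) (convexHull ℝ W) := by
  refine exposed_of _ W (fn α β γ) M (fun v hv => by rw [fn_apply]; exact (h v hv).1) ?_
  ext v
  simp only [mem_ofPred_eq, fn_apply]
  exact ⟨fun hv => ⟨hW hv, (h v (hW hv)).2.2 hv⟩, fun hv => (h v hv.1).2.1 hv.2⟩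

theorem skew_gdome : IsGDome (convexHull ℝ skewV) (convexHull ℝ baseV) := by
  refine ⟨skew_polyhedron, ⟨skew_exposed baseV 0 0 (-1) 0 baseV_subset_skew ?_,
    ⟨![0, 0, 0], subset_convexHull ℝ _ (by simp [baseV])⟩, base_dim⟩, ?_⟩
  · rw [forall_skewV]
    simp [baseV]
  rintro F ⟨hF, hne, hdim⟩ -
  obtain ⟨l, M, hV, hFeq⟩ := exposed_struct _ F hF hne
  have hXG : convexHull ℝ baseV ⊆ convexHull ℝ skewV := convexHull_mono baseV_subset_skew
  have key : ∀ p ∈ baseV, IsExposed ℝ (convexHull ℝ skewV) (convexHull ℝ {p}) → l p = M →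
      ∃ C, (IsFace 1 F C ∧ IsFace 1 (convexHull ℝ baseV) C) ∨
        (IsFace 0 F C ∧ IsFace 0 (convexHull ℝ baseV) C) := fun p hp hE h =>
    ⟨_, Or.inr ⟨vertex_of _ F p hE hF.subset
        (by rw [hFeq]; exact subset_convexHull ℝ _ ⟨baseV_subset_skew hp, h⟩),
      vertex_of _ _ p hE hXG (subset_convexHull ℝ _ hp)⟩⟩
  by_cases ha : l ![0, 0, 0] = M
  · refine key _ (by simp [baseV]) (skew_exposed _ (-1) (-1) 0 0 (by simp [skewV]) ?_) ha
    rw [forall_skewV]; norm_num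
  by_cases hb : l ![9, 0, 0] = M
  · refine key _ (by simp [baseV]) (skew_exposed _ 1 (-1) 0 9 (by simp [skewV]) ?_) hb
    rw [forall_skewV]; norm_num
  by_cases hc : l ![9, 6, 0] = M
  · refine key _ (by simp [baseV]) (skew_exposed _ 1 1 0 15 (by simp [skewV]) ?_) hc
    rw [forall_skewV]; norm_num
  by_cases hd : l ![0, 6, 0] = M
  · refine key _ (by simp [baseV]) (skew_exposed _ (-1) 1 0 6 (by simp [skewV]) ?_) hd
    rw [forall_skewV]; norm_num
  exfalso
  have hpq : ∀ v ∈ skewV, l v = M → v = ![2, 2, 2] ∨ v = ![7, 4, 2] :=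
    forall_skewV.2 ⟨fun h => absurd h ha, fun h => absurd h hb, fun h => absurd h hc,
      fun h => absurd h hd, fun _ => Or.inl rfl, fun _ => Or.inr rfl⟩
  have := finrank_pair_le _ _ {v ∈ skewV | l v = M} (fun v hv => hpq v hv.1 hv.2)
  rw [← hFeq, hdim] at this
  omega

theorem skew_subset : convexHull ℝ skewV ⊆ convexHull ℝ (roofV 3 3) := by
  refine convexHull_min (forall_skewV.2 ⟨?_, ?_, ?_, ?_, ?_, ?_⟩) (convex_convexHull ℝ _)
  · exact subset_convexHull ℝ _ (by simp [roofV])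
  · exact subset_convexHull ℝ _ (by simp [roofV])
  · exact subset_convexHull ℝ _ (by simp [roofV])
  · exact subset_convexHull ℝ _ (by simp [roofV])
  · refine seg_mem (p := ![3, 3, 3]) (q := ![0, 0, 0]) (by simp [roofV]) (by simp [roofV])
      (2 / 3) (by norm_num) (by norm_num) ?_
    ext i; fin_cases i <;> norm_num
  · refine seg_mem (p := ![9 - 3, 3, 3]) (q := ![9, 6, 0]) (by simp [roofV]) (by simp [roofV])
      (2 / 3) (by norm_num) (by norm_num) ?_
    ext i; fin_cases i <;> norm_num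

theorem wit_mem : (![9 / 2, 3, 5 / 2] : Fin 3 → ℝ) ∈ convexHull ℝ (roofV 3 3) := by
  have h1 : (![9 / 2, 3, 3] : Fin 3 → ℝ) ∈ convexHull ℝ (roofV 3 3) := by
    refine seg_mem (p := ![3, 3, 3]) (q := ![9 - 3, 3, 3]) (by simp [roofV]) (by simp [roofV])
      (1 / 2) (by norm_num) (by norm_num) ?_
    ext i; fin_cases i <;> norm_num
  have h2 : (![9 / 2, 3, 0] : Fin 3 → ℝ) ∈ convexHull ℝ (roofV 3 3) := by
    refine seg_mem (p := ![0, 0, 0]) (q := ![9, 6, 0]) (by simp [roofV]) (by simp [roofV])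
      (1 / 2) (by norm_num) (by norm_num) ?_
    ext i; fin_cases i <;> norm_num
  have := convex_convexHull ℝ (roofV 3 3) h1 h2 (a := 5 / 6) (b := 1 / 6) (by norm_num)
    (by norm_num) (by norm_num)
  convert this using 1
  ext i; fin_cases i <;> norm_num

theorem wit_not_mem : (![9 / 2, 3, 5 / 2] : Fin 3 → ℝ) ∉ convexHull ℝ skewV := by
  intro h
  have := (hull_le _ (fn 0 0 1) 2
    (forall_skewV.2 (by norm_num [fn_apply, Matrix.cons_val_two])) _ h).1
  norm_num [fn_apply, Matrix.cons_val_two] at this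

theorem wit_stays (A Q A' : Set (Fin 3 → ℝ))
    (h : CutOff (convexHull ℝ baseV) (convexHull ℝ skewV) A Q A')
    (hw : (![9 / 2, 3, 5 / 2] : Fin 3 → ℝ) ∈ A) : (![9 / 2, 3, 5 / 2] : Fin 3 → ℝ) ∈ A' := by
  obtain ⟨l, c, hl0, ⟨e, he, hec⟩, -, hD, hQeq, hA'⟩ := h
  obtain ⟨α, β, γ, hl, hz⟩ := lin_coeffs l
  obtain ⟨p, hp, q, hq, hpq, hpe, hqe⟩ := edge_two baseV e he
  have h1 := hec p hpe
  have h2 := hec q hqe
  have hDV : ∀ v ∈ skewV, l v ≤ c := fun v hv => hD v (subset_convexHull ℝ _ hv)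
  obtain ⟨ia, ib, ic, id, iu, iw⟩ := forall_skewV.1 hDV
  rw [hA']
  apply subset_closure
  refine ⟨hw, fun hQ => ?_⟩
  rw [hQeq] at hQ
  have h3 : c ≤ l ![9 / 2, 3, 5 / 2] := hQ.2
  apply hl0
  simp only [baseV, mem_insert_iff, mem_singleton_iff] at hp hq
  rcases hp with rfl | rfl | rfl | rfl <;> rcases hq with rfl | rfl | rfl | rfl <;>
    simp only [hl, Matrix.cons_val_zero, Matrix.cons_val_one, Matrix.cons_val_two,
      Matrix.head_cons, Matrix.tail_cons] at h1 h2 h3 ia ib ic id iu iw <;>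
    first
      | exact absurd rfl hpq
      | exact hz (by linarith) (by linarith) (by linarith)

theorem skew_not_reach : ¬ Relation.ReflTransGen
    (fun A A' => ∃ Q, CutOff (convexHull ℝ baseV) (convexHull ℝ skewV) A Q A')
    (convexHull ℝ (roofV 3 3)) (convexHull ℝ skewV) := by
  intro h
  have key : ∀ A, Relation.ReflTransGen
      (fun A A' => ∃ Q, CutOff (convexHull ℝ baseV) (convexHull ℝ skewV) A Q A')
      (convexHull ℝ (roofV 3 3)) A → (![9 / 2, 3, 5 / 2] : Fin 3 → ℝ) ∈ A := by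
    intro A hA
    induction hA with
    | refl => exact wit_mem
    | tail _ hstep ih =>
      obtain ⟨Q, hQ⟩ := hstep
      exact wit_stays _ Q _ hQ ih
  exact wit_not_mem (key _ h)

end Pool.Agent.MP_3a21c3_co
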